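import Pool.Agent.Y428.Tu.Two3
set_option autoImplicit false
set_option linter.unusedSectionVars false
set_option linter.unusedVariables false
set_option maxHeartbeats 1000000

/-! Flow polynomials of multigraphs given by unordered pairs of ends. -/

namespace Pool.Agent.Y428.Tu

open Finset Pool.Agent.H753R2.FR

section
variable {V E : Type} [DecidableEq V] [DecidableEq E] [Fintype V] [Fintype E]

/-- the multigraph with the ends `ends` -/
noncomputable def grS (ends : E → Sym2 V) : MG V E where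
  x e := (Quot.out (ends e)).1
  y e := (Quot.out (ends e)).2

theorem grS_mk (ends : E → Sym2 V) (e : E) : s((grS ends).x e, (grS ends).y e) = ends e := by
  show Sym2.mk (Quot.out (ends e)).1 (Quot.out (ends e)).2 = ends e
  exact Quot.out_eq (ends e)

theorem connS_eq (ends : E → Sym2 V) (A : Finset E) :
    conn (grS ends) A = (SimpleGraph.fromEdgeSet (ends '' (A : Set E))).reachableSetoid := by
  apply le_antisymm
  · refine Finset.sup_le fun e he => ?_
    have hreach : (SimpleGraph.fromEdgeSet (ends '' (A : Set E))).Reachable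
        ((grS ends).x e) ((grS ends).y e) := by
      by_cases hne : (grS ends).x e = (grS ends).y e
      · rw [hne]
      · apply SimpleGraph.Adj.reachable
        rw [SimpleGraph.fromEdgeSet_adj]
        refine ⟨⟨e, he, ?_⟩, hne⟩
        rw [grS_mk]
    intro a b hab
    have hab' : a = b ∨ ((a = (grS ends).x e ∨ a = (grS ends).y e) ∧
        (b = (grS ends).x e ∨ b = (grS ends).y e)) := hab
    change (SimpleGraph.fromEdgeSet (ends '' (A : Set E))).Reachable a b
    rcases hab' with h | ⟨h1 | h1, h2 | h2⟩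
    · rw [h]
    · rw [h1, h2]
    · rw [h1, h2]; exact hreach
    · rw [h1, h2]; exact hreach.symm
    · rw [h1, h2]
  · intro a b hab
    have hab' : (SimpleGraph.fromEdgeSet (ends '' (A : Set E))).Reachable a b := hab
    obtain ⟨w⟩ := hab'
    induction w with
    | nil => exact (conn (grS ends) A).refl _
    | @cons u v w hadj _ ih =>
      refine (conn (grS ends) A).trans ?_ (ih ⟨‹_›⟩)
      rw [SimpleGraph.fromEdgeSet_adj] at hadj
      obtain ⟨⟨f, hf, hfe⟩, _⟩ := hadj
      have hle : pr ((grS ends).x f) ((grS ends).y f) ≤ conn (grS ends) A :=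
        Finset.le_sup (f := fun e => pr ((grS ends).x e) ((grS ends).y e)) (Finset.mem_coe.mp hf)
      apply hle
      rw [← grS_mk ends f, Sym2.eq_iff] at hfe
      change u = v ∨ ((u = (grS ends).x f ∨ u = (grS ends).y f) ∧
        (v = (grS ends).x f ∨ v = (grS ends).y f))
      rcases hfe with ⟨h1, h2⟩ | ⟨h1, h2⟩
      · exact Or.inr ⟨Or.inl h1.symm, Or.inr h2.symm⟩
      · exact Or.inr ⟨Or.inr h2.symm, Or.inl h1.symm⟩

theorem clS_eq (ends : E → Sym2 V) (A : Finset E) :
    Nat.card (SimpleGraph.fromEdgeSet (ends '' (A : Set E))).ConnectedComponent =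
      cl (conn (grS ends) A) := by
  rw [connS_eq]
  rfl

theorem flow_evalS (G : MG V E) (x : ℝ) (hx : 1 < x) :
    (∑ A : Finset E, (-1 : ℝ) ^ (Fintype.card E - A.card) *
      x ^ (A.card + cl (conn G A) - Fintype.card V)) * x ^ Fintype.card V
      = m G x ⊥ univ * (x - 1) ^ Fintype.card E := by
  rw [Finset.sum_mul, m, Finset.powerset_univ, Finset.sum_mul]
  refine Finset.sum_congr rfl fun A hA => ?_
  have hA' : A ⊆ univ := Finset.subset_univ A
  have hcc : Fintype.card V ≤ A.card + cl (conn G A) := E2.cl_conn' G A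
  have hx1 : x - 1 ≠ 0 := by linarith
  have hk : (univ \ A : Finset E).card = Fintype.card E - A.card := by
    rw [Finset.card_sdiff_of_subset hA', Finset.card_univ]
  have hAk : A.card ≤ Fintype.card E := by
    have := Finset.card_le_card hA'
    rwa [Finset.card_univ] at this
  rw [E2.wt_eq' _ hA', hk, bot_sup_eq]
  rw [mul_assoc, ← pow_add, Nat.sub_add_cancel hcc, pow_add]
  have h1 : (1 + 1 / (x - 1)) = x / (x - 1) := by field_simp; ring
  have h2 : (-(1 / (x - 1))) ^ (Fintype.card E - A.card)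
      = (-1) ^ (Fintype.card E - A.card) / (x - 1) ^ (Fintype.card E - A.card) := by
    rw [← neg_div, div_pow]
  have h3 : (x - 1) ^ Fintype.card E = (x - 1) ^ A.card * (x - 1) ^ (Fintype.card E - A.card) := by
    rw [← pow_add, Nat.add_sub_cancel' hAk]
  rw [h1, h2, h3, div_pow]
  have h4 : (x - 1) ^ A.card ≠ 0 := pow_ne_zero _ hx1
  have h5 : (x - 1) ^ (Fintype.card E - A.card) ≠ 0 := pow_ne_zero _ hx1
  field_simp

/-- the two-sided bound for the flow polynomial -/
theorem flow_two [Nonempty V] (G : MG V E) {q δ : ℝ} (hq : 4 * MM ^ 2 + 3 ≤ q)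
    (hδ : 4 * MM ^ 2 ≤ δ * q) (hδ1 : δ ≤ 1) (hb : ∀ e, (conn G (univ.erase e)) (G.x e) (G.y e)) :
    (1 - δ) ^ (Fintype.card V - cl (conn G univ)) *
      ((q - 1) ^ Fintype.card E / q ^ (Fintype.card V - cl (conn G univ))) ≤
      ∑ A : Finset E, (-1 : ℝ) ^ (Fintype.card E - A.card) *
        q ^ (A.card + cl (conn G A) - Fintype.card V) ∧
    ∑ A : Finset E, (-1 : ℝ) ^ (Fintype.card E - A.card) *
        q ^ (A.card + cl (conn G A) - Fintype.card V) ≤
    (1 + δ) ^ (Fintype.card V - cl (conn G univ)) *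
      ((q - 1) ^ Fintype.card E / q ^ (Fintype.card V - cl (conn G univ))) := by
  have hM := basics.2.2.2.2.1
  have hq1 : 1 < q := by nlinarith
  have hq0 : 0 < q := by linarith
  have h1 := tw_minor G ⊥ univ (two_sided hq hδ hδ1 _ _) (by
    intro e _
    rw [bot_sup_eq]
    exact hb e)
  rw [cl_bot, bot_sup_eq] at h1
  obtain ⟨h2, h3⟩ := h1
  have h4 := flow_evalS G q hq1
  obtain ⟨F, hF⟩ : ∃ F, F = ∑ A : Finset E, (-1 : ℝ) ^ (Fintype.card E - A.card) *
        q ^ (A.card + cl (conn G A) - Fintype.card V) := ⟨_, rfl⟩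
  rw [← hF] at h4 ⊢
  obtain ⟨c, hc⟩ : ∃ c, c = cl (conn G univ) := ⟨_, rfl⟩
  have hcV : c ≤ Fintype.card V := by rw [hc]; exact E1.cl_le_card _
  rw [← hc] at h2 h3 ⊢
  obtain ⟨N, hN⟩ : ∃ N, N = Fintype.card V := ⟨_, rfl⟩
  obtain ⟨K, hK⟩ : ∃ K, K = Fintype.card E := ⟨_, rfl⟩
  rw [← hN] at h2 h3 h4 hcV ⊢
  rw [← hK] at h4 ⊢
  have hqN : q ^ N = q ^ (N - c) * q ^ c := by rw [← pow_add, Nat.sub_add_cancel hcV]
  have hp1 : 0 < q ^ (N - c) := pow_pos hq0 _
  have hp2 : 0 < q ^ c := pow_pos hq0 _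
  have hp3 : 0 < (q - 1) ^ K := pow_pos (by linarith) _
  obtain ⟨mm, hmm⟩ : ∃ mm, mm = m G q ⊥ univ := ⟨_, rfl⟩
  rw [← hmm] at h2 h3 h4
  have hFe : F = (mm / q ^ c) * ((q - 1) ^ K / q ^ (N - c)) := by
    rw [hqN] at h4
    field_simp
    linarith
  have hm1 : (1 - δ) ^ (N - c) ≤ mm / q ^ c := by
    rw [le_div_iff₀ hp2]
    exact h2
  have hm2 : mm / q ^ c ≤ (1 + δ) ^ (N - c) := by
    rw [div_le_iff₀ hp2]
    exact h3
  have hr : 0 ≤ (q - 1) ^ K / q ^ (N - c) := by positivity
  rw [hFe]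
  exact ⟨mul_le_mul_of_nonneg_right hm1 hr, mul_le_mul_of_nonneg_right hm2 hr⟩

end

end Pool.Agent.Y428.Tu
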