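import Pool.Agent.Y428.Tu.Two3
set_option autoImplicit false
set_option linter.unusedSectionVars false
set_option linter.unusedVariables false
set_option maxHeartbeats 1000000

/-! The multivariate Tutte polynomial with edge weights at most `-q` or non-negative. -/

namespace Pool.Agent.Y428.Tu

open Finset Pool.Agent.H753R2.FR

section
variable {V I : Type} [DecidableEq V] [DecidableEq I] [Fintype V] [Fintype I]

/-- mixed sums: weight `v e` on the edges of `S`, flow weight on the edges of `O` -/
noncomputable def ZZ (G : MG V I) (q : ℝ) (v : I → ℝ) (r : Setoid V) (S O : Finset I) : ℝ :=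
  ∑ A ∈ S.powerset, (∏ e ∈ A, v e) * m G q (r ⊔ conn G A) O

/-- the sign -/
noncomputable def sg (v : I → ℝ) (S : Finset I) : ℝ := ∏ e ∈ S, if v e < 0 then -1 else 1

variable (G : MG V I) (q : ℝ) (v : I → ℝ)

theorem ZZ_empty (r : Setoid V) (O : Finset I) : ZZ G q v r ∅ O = m G q r O := by
  unfold ZZ
  rw [Finset.powerset_empty, Finset.sum_singleton, conn_empty]
  simp

theorem ZZ_insert (r : Setoid V) {S : Finset I} (O : Finset I) {e : I} (he : e ∉ S) :
    ZZ G q v r (insert e S) O = ZZ G q v r S O + v e * ZZ G q v (r ⊔ pr (G.x e) (G.y e)) S O := by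
  unfold ZZ
  rw [Finset.sum_powerset_insert he, Finset.mul_sum]
  congr 1
  refine Finset.sum_congr rfl fun A hA => ?_
  have hA' : A ⊆ S := Finset.mem_powerset.mp hA
  have heA : e ∉ A := fun h => he (hA' h)
  rw [Finset.prod_insert heA, conn_insert]
  have h2 : r ⊔ (conn G A ⊔ pr (G.x e) (G.y e)) = r ⊔ pr (G.x e) (G.y e) ⊔ conn G A := by
    rw [← sup_assoc, sup_right_comm]
  rw [h2]
  ring

theorem ZZ_O (hq : 1 < q) (r : Setoid V) {S O : Finset I} {e : I} (he : e ∉ O) :
    ZZ G q v r S O = q * ZZ G q v (r ⊔ pr (G.x e) (G.y e)) S O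
      - (q - 1) * ZZ G q v r S (insert e O) := by
  unfold ZZ
  rw [Finset.mul_sum, Finset.mul_sum, ← Finset.sum_sub_distrib]
  refine Finset.sum_congr rfl fun A hA => ?_
  rw [m_insert G q he, sup_right_comm]
  have hq1 : q - 1 ≠ 0 := by linarith
  field_simp
  ring

theorem ZZ_neg (hq : 1 < q) (r : Setoid V) {S O : Finset I} {e : I} (he : e ∉ S) (heO : e ∉ O) :
    -ZZ G q v r (insert e S) O = (-v e - q) * ZZ G q v (r ⊔ pr (G.x e) (G.y e)) S O
      + (q - 1) * ZZ G q v r S (insert e O) := by
  rw [ZZ_insert G q v r O he, ZZ_O G q v hq r heO]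
  ring

theorem sg_insert {S : Finset I} {e : I} (he : e ∉ S) :
    sg v (insert e S) = (if v e < 0 then -1 else 1) * sg v S := by
  unfold sg
  rw [Finset.prod_insert he]

/-- the sign is right for all weights at most `-q` or non-negative -/
theorem ZZ_nonneg (hq : 1 < q) (hnn : ∀ (r : Setoid V) (S : Finset I), 0 ≤ m G q r S)
    (hv : ∀ e, v e ≤ -q ∨ 0 ≤ v e) (S : Finset I) :
    ∀ (r : Setoid V) (O : Finset I), Disjoint S O → 0 ≤ sg v S * ZZ G q v r S O := by
  induction S using Finset.induction_on with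
  | empty =>
    intro r O _
    rw [ZZ_empty]
    unfold sg
    rw [Finset.prod_empty, one_mul]
    exact hnn r O
  | insert e S he ih =>
    intro r O hd
    rw [Finset.disjoint_insert_left] at hd
    rw [sg_insert v he]
    have h1 := ih (r ⊔ pr (G.x e) (G.y e)) O hd.2
    rcases hv e with h | h
    · have h2 := ih r (insert e O) (by
        rw [Finset.disjoint_insert_right]; exact ⟨he, hd.2⟩)
      rw [if_pos (by linarith)]
      have h3 : -1 * sg v S * ZZ G q v r (insert e S) O =
          sg v S * (-ZZ G q v r (insert e S) O) := by ring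
      rw [h3, ZZ_neg G q v hq r he hd.1]
      have h4 : 0 ≤ -v e - q := by linarith
      have h5 : 0 ≤ q - 1 := by linarith
      have h6 := mul_nonneg h4 h1
      have h7 := mul_nonneg h5 h2
      have h8 : sg v S * ((-v e - q) * ZZ G q v (r ⊔ pr (G.x e) (G.y e)) S O
          + (q - 1) * ZZ G q v r S (insert e O)) =
          (-v e - q) * (sg v S * ZZ G q v (r ⊔ pr (G.x e) (G.y e)) S O) +
          (q - 1) * (sg v S * ZZ G q v r S (insert e O)) := by ring
      rw [h8]
      linarith
    · rw [if_neg (by linarith), ZZ_insert G q v r O he, one_mul]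
      have h2 := ih r O hd.2
      have h3 := mul_nonneg h h1
      have h4 : sg v S * (ZZ G q v r S O + v e * ZZ G q v (r ⊔ pr (G.x e) (G.y e)) S O) =
          sg v S * ZZ G q v r S O + v e * (sg v S * ZZ G q v (r ⊔ pr (G.x e) (G.y e)) S O) := by
        ring
      rw [h4]
      linarith

/-- strict version -/
theorem ZZ_pos (hq : 1 < q) (hnn : ∀ (r : Setoid V) (S : Finset I), 0 ≤ m G q r S)
    (hpos : ∀ (r : Setoid V) (S : Finset I),
      (∀ e ∈ S, (r ⊔ conn G (S.erase e)) (G.x e) (G.y e)) → 0 < m G q r S)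
    (hv : ∀ e, v e ≤ -q ∨ 0 ≤ v e) (S : Finset I) :
    ∀ (r : Setoid V) (O : Finset I), Disjoint S O →
      (∀ e, (e ∈ O ∨ (e ∈ S ∧ v e = -q)) →
        (r ⊔ conn G ((O ∪ S.filter (fun f => v f ≠ 0)).erase e)) (G.x e) (G.y e)) →
      0 < sg v S * ZZ G q v r S O := by
  induction S using Finset.induction_on with
  | empty =>
    intro r O _ hb
    rw [ZZ_empty]
    unfold sg
    rw [Finset.prod_empty, one_mul]
    refine hpos r O fun e he => ?_
    have := hb e (Or.inl he)
    rw [Finset.filter_empty, Finset.union_empty] at this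
    exact this
  | insert e S he ih =>
    intro r O hd hb
    rw [Finset.disjoint_insert_left] at hd
    rw [sg_insert v he]
    have hd2 : Disjoint S (insert e O) := by
      rw [Finset.disjoint_insert_right]; exact ⟨he, hd.2⟩
    -- contraction of e
    have hcon : v e ≠ 0 → v e ≠ -q →
        0 < sg v S * ZZ G q v (r ⊔ pr (G.x e) (G.y e)) S O := by
      intro h0 h1
      refine ih _ O hd.2 fun f hf => ?_
      have hfe : f ≠ e := by
        rintro rfl
        rcases hf with h | h
        · exact hd.1 h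
        · exact he h.1
      have h2 := hb f (by
        rcases hf with h | h
        · exact Or.inl h
        · exact Or.inr ⟨Finset.mem_insert_of_mem h.1, h.2⟩)
      have h3 : (O ∪ (insert e S).filter (fun f => v f ≠ 0)).erase f =
          insert e ((O ∪ S.filter (fun f => v f ≠ 0)).erase f) := by
        ext g
        simp only [Finset.mem_erase, Finset.mem_union, Finset.mem_filter, Finset.mem_insert]
        by_cases hg : g = e
        · subst hg
          simp [hfe.symm, h0]
        · simp [hg]
      rw [h3, conn_insert, sup_comm (conn G _), ← sup_assoc] at h2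
      exact h2
    rcases hv e with h | h
    · rw [if_pos (by linarith)]
      have h3 : -1 * sg v S * ZZ G q v r (insert e S) O =
          sg v S * (-ZZ G q v r (insert e S) O) := by ring
      rw [h3, ZZ_neg G q v hq r he hd.1]
      have h8 : sg v S * ((-v e - q) * ZZ G q v (r ⊔ pr (G.x e) (G.y e)) S O
          + (q - 1) * ZZ G q v r S (insert e O)) =
          (-v e - q) * (sg v S * ZZ G q v (r ⊔ pr (G.x e) (G.y e)) S O) +
          (q - 1) * (sg v S * ZZ G q v r S (insert e O)) := by ring
      rw [h8]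
      rcases h.lt_or_eq with h1 | h1
      · have h4 := mul_pos (by linarith : 0 < -v e - q) (hcon (by intro h'; linarith) h1.ne)
        have h5 := mul_nonneg (by linarith : 0 ≤ q - 1) (ZZ_nonneg G q v hq hnn hv S r (insert e O) hd2)
        linarith
      · have h2 : 0 < sg v S * ZZ G q v r S (insert e O) := by
          refine ih r (insert e O) hd2 fun f hf => ?_
          have h5 := hb f (by
            rcases hf with h' | h'
            · rcases Finset.mem_insert.mp h' with h' | h'
              · rw [h']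
                exact Or.inr ⟨Finset.mem_insert_self _ _, h1⟩
              · exact Or.inl h'
            · exact Or.inr ⟨Finset.mem_insert_of_mem h'.1, h'.2⟩)
          have h6 : O ∪ (insert e S).filter (fun f => v f ≠ 0) =
              insert e O ∪ S.filter (fun f => v f ≠ 0) := by
            rw [Finset.filter_insert, if_pos (by intro h'; linarith)]
            ext g
            simp only [Finset.mem_union, Finset.mem_insert, Finset.mem_filter]
            tauto
          rw [h6] at h5
          exact h5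
        rw [show -v e - q = 0 by linarith, zero_mul, zero_add]
        exact mul_pos (by linarith) h2
    · rw [if_neg (by linarith), ZZ_insert G q v r O he, one_mul]
      have h4 : sg v S * (ZZ G q v r S O + v e * ZZ G q v (r ⊔ pr (G.x e) (G.y e)) S O) =
          sg v S * ZZ G q v r S O + v e * (sg v S * ZZ G q v (r ⊔ pr (G.x e) (G.y e)) S O) := by
        ring
      rw [h4]
      have h2 := ZZ_nonneg G q v hq hnn hv S r O hd.2
      rcases h.lt_or_eq with h1 | h1
      · have h3 := mul_pos h1 (hcon h1.ne' (by intro h'; linarith))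
        linarith
      · rw [← h1, zero_mul, add_zero]
        refine ih r O hd.2 fun f hf => ?_
        have h5 := hb f (by
            rcases hf with h' | h'
            · exact Or.inl h'
            · exact Or.inr ⟨Finset.mem_insert_of_mem h'.1, h'.2⟩)
        rw [Finset.filter_insert, if_neg (by rw [← h1]; simp)] at h5
        exact h5

/-- a bridge with weight `-q` -/
theorem ZZ_zero {e : I} (hve : v e = -q)
    (hbr : ¬ (conn G (((univ : Finset I).filter (fun f => v f ≠ 0)).erase e)) (G.x e) (G.y e)) :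
    ZZ G q v ⊥ univ ∅ = 0 := by
  have hU : (univ : Finset I) = insert e (univ.erase e) := by
    rw [Finset.insert_erase (Finset.mem_univ e)]
  rw [hU, ZZ_insert G q v ⊥ ∅ (Finset.notMem_erase e univ)]
  unfold ZZ
  rw [Finset.mul_sum, ← Finset.sum_add_distrib]
  refine Finset.sum_eq_zero fun A hA => ?_
  rw [Finset.mem_powerset] at hA
  by_cases h0 : ∃ f ∈ A, v f = 0
  · obtain ⟨f, hf, hf0⟩ := h0
    rw [Finset.prod_eq_zero hf hf0]
    ring
  · push Not at h0
    have hsub : A ⊆ ((univ : Finset I).filter (fun f => v f ≠ 0)).erase e := by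
      intro f hf
      rw [Finset.mem_erase, Finset.mem_filter]
      exact ⟨(Finset.mem_erase.mp (hA hf)).1, Finset.mem_univ _, h0 f hf⟩
    have h1 : ¬ (conn G A) (G.x e) (G.y e) := fun h => hbr (conn_mono G hsub h)
    have h2 := cl_sup_pr_of_not h1
    rw [m_empty, m_empty, bot_sup_eq, bot_sup_eq, sup_comm (pr _ _), ← h2, hve, pow_succ]
    ring

/-- two-sided bound for weights at most `-q` -/
theorem ZZ_two [Nonempty V] {δ : ℝ} (hq1 : 1 < q) (hδ0 : 0 ≤ δ) (hδ1 : δ ≤ 1)
    (ht : ∀ n k, Tw q δ n k) (hv : ∀ e, v e ≤ -q) (S : Finset I) :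
    ∀ (r : Setoid V) (O : Finset I), Disjoint S O →
      (∀ e ∈ S ∪ O, (r ⊔ conn G ((S ∪ O).erase e)) (G.x e) (G.y e)) →
      (∏ e ∈ S, (-v e - 1)) * ((1 - δ) ^ (cl r - cl (r ⊔ conn G (S ∪ O))) *
        q ^ cl (r ⊔ conn G (S ∪ O))) ≤ sg v S * ZZ G q v r S O ∧
      sg v S * ZZ G q v r S O ≤ (∏ e ∈ S, (-v e - 1)) *
        ((1 + δ) ^ (cl r - cl (r ⊔ conn G (S ∪ O))) * q ^ cl (r ⊔ conn G (S ∪ O))) := by
  induction S using Finset.induction_on with
  | empty =>
    intro r O _ hb
    rw [ZZ_empty]
    unfold sg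
    rw [Finset.prod_empty, Finset.prod_empty, one_mul, one_mul, one_mul]
    rw [Finset.empty_union] at hb ⊢
    exact tw_minor G r O (ht _ _) hb
  | insert e S he ih =>
    intro r O hd hb
    rw [Finset.disjoint_insert_left] at hd
    have hd2 : Disjoint S (insert e O) := by
      rw [Finset.disjoint_insert_right]; exact ⟨he, hd.2⟩
    have hve := hv e
    have heU : e ∉ S ∪ O := by
      rw [Finset.mem_union]
      rintro (h | h)
      · exact he h
      · exact hd.1 h
    rw [sg_insert v he, if_pos (by linarith), Finset.prod_insert he]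
    have h3 : -1 * sg v S * ZZ G q v r (insert e S) O =
        sg v S * (-ZZ G q v r (insert e S) O) := by ring
    have h8 : sg v S * ((-v e - q) * ZZ G q v (r ⊔ pr (G.x e) (G.y e)) S O
        + (q - 1) * ZZ G q v r S (insert e O)) =
        (-v e - q) * (sg v S * ZZ G q v (r ⊔ pr (G.x e) (G.y e)) S O) +
        (q - 1) * (sg v S * ZZ G q v r S (insert e O)) := by ring
    rw [h3, ZZ_neg G q v hq1 r he hd.1, h8]
    have hU1 : insert e S ∪ O = insert e (S ∪ O) := Finset.insert_union _ _ _
    have hU2 : S ∪ insert e O = insert e (S ∪ O) := Finset.union_insert _ _ _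
    have hc : r ⊔ pr (G.x e) (G.y e) ⊔ conn G (S ∪ O) = r ⊔ conn G (insert e (S ∪ O)) := by
      rw [conn_insert, sup_comm (conn G _), sup_assoc]
    obtain ⟨a1, a2⟩ := ih (r ⊔ pr (G.x e) (G.y e)) O hd.2 (by
      intro f hf
      have hfe : f ≠ e := fun h => heU (h ▸ hf)
      have h5 := hb f (by rw [hU1]; exact Finset.mem_insert_of_mem hf)
      rw [hU1, Finset.erase_insert_of_ne hfe.symm, conn_insert, sup_comm (conn G _),
        ← sup_assoc] at h5
      exact h5)
    obtain ⟨b1, b2⟩ := ih r (insert e O) hd2 (by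
      rw [hU2, ← hU1]
      exact hb)
    rw [hU1]
    rw [hU2] at b1 b2
    rw [hc] at a1 a2
    obtain ⟨c, hcd⟩ : ∃ c, c = cl (r ⊔ conn G (insert e (S ∪ O))) := ⟨_, rfl⟩
    rw [← hcd] at a1 a2 b1 b2 ⊢
    obtain ⟨n', hn'⟩ : ∃ n', n' = cl (r ⊔ pr (G.x e) (G.y e)) := ⟨_, rfl⟩
    rw [← hn'] at a1 a2
    have hnn : n' ≤ cl r := by
      rw [hn']
      exact cl_le_of_le le_sup_left
    obtain ⟨P, hP⟩ : ∃ P, P = ∏ e ∈ S, (-v e - 1) := ⟨_, rfl⟩
    rw [← hP] at a1 a2 b1 b2 ⊢
    have hP0 : 0 ≤ P := by
      rw [hP]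
      exact Finset.prod_nonneg fun f _ => by linarith [hv f]
    have hqc : 0 ≤ q ^ c := pow_nonneg (by linarith) _
    have hlo : (1 - δ) ^ (cl r - c) ≤ (1 - δ) ^ (n' - c) :=
      pow_le_pow_of_le_one (by linarith) (by linarith) (by omega)
    have hup : (1 + δ) ^ (n' - c) ≤ (1 + δ) ^ (cl r - c) :=
      pow_le_pow_right₀ (by linarith) (by omega)
    have hu : 0 ≤ -v e - q := by linarith
    have hw : 0 ≤ q - 1 := by linarith
    constructor
    · have a3 : P * ((1 - δ) ^ (cl r - c) * q ^ c) ≤
          sg v S * ZZ G q v (r ⊔ pr (G.x e) (G.y e)) S O := by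
        refine le_trans ?_ a1
        exact mul_le_mul_of_nonneg_left (mul_le_mul_of_nonneg_right hlo hqc) hP0
      have a4 := mul_le_mul_of_nonneg_left a3 hu
      have b4 := mul_le_mul_of_nonneg_left b1 hw
      have e1 : (-v e - 1) * P * ((1 - δ) ^ (cl r - c) * q ^ c) =
          (-v e - q) * (P * ((1 - δ) ^ (cl r - c) * q ^ c)) +
          (q - 1) * (P * ((1 - δ) ^ (cl r - c) * q ^ c)) := by ring
      rw [e1]
      linarith
    · have a3 : sg v S * ZZ G q v (r ⊔ pr (G.x e) (G.y e)) S O ≤
          P * ((1 + δ) ^ (cl r - c) * q ^ c) := by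
        refine le_trans a2 ?_
        exact mul_le_mul_of_nonneg_left (mul_le_mul_of_nonneg_right hup hqc) hP0
      have a4 := mul_le_mul_of_nonneg_left a3 hu
      have b4 := mul_le_mul_of_nonneg_left b2 hw
      have e1 : (-v e - 1) * P * ((1 + δ) ^ (cl r - c) * q ^ c) =
          (-v e - q) * (P * ((1 + δ) ^ (cl r - c) * q ^ c)) +
          (q - 1) * (P * ((1 + δ) ^ (cl r - c) * q ^ c)) := by ring
      rw [e1]
      linarith

end

end Pool.Agent.Y428.Tu
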