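import Mathlib
import Pool.Agent.H753R2.FR.T_D6
import Pool.Agent.H753R2.FR.T_D6b
set_option autoImplicit false
set_option linter.unusedSectionVars false
set_option linter.unusedVariables false
set_option maxHeartbeats 1000000

/-! Real flow roots: explicit constants. -/

namespace Pool.Agent.Y428.Tu

open Finset Pool.Agent.H753R2.FR

/-- the exponent of the counting lemma -/
noncomputable def BB : ℝ := 2 * (TB.B0 (11 / 500) + 3)

open TB in
theorem counting_ex :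
    ∀ (V I : Type) [DecidableEq V] [DecidableEq I] [Fintype V] [Fintype I] (G : MG V I)
      (D K : Finset V) (u : V), K ⊆ D → K.Nonempty → u ∈ D \ K →
      (∀ Z, Z ⊆ D \ K → Z.Nonempty → 2 ≤ (cut G Z (D \ Z)).card) →
      (∀ Z, Z ⊆ D \ K → Z.Nonempty →
        (11 / 500 : ℝ) * ((min Z.card (D \ Z).card : ℕ) : ℝ) ^ ((1 : ℝ) / 3) ≤
          ((cut G Z (D \ Z)).card : ℝ)) →
      ∀ lam : ℝ, 0 ≤ lam → lam * Real.exp BB ≤ 1 →
        ∑ Y ∈ fam G D K u, lam ^ (cut G Y (D \ Y)).card ≤ (lam * Real.exp BB) ^ 2 := by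
  have hc : (0 : ℝ) < 11 / 500 := by norm_num
  intro V I _ _ _ _ G D K u hKD hK hu h2 h3 lam hlam hlam1
  classical
  obtain ⟨k0, hk0⟩ := hK
  have hcl := claim (lam := lam) hc hlam hlam1 hk0 hKD hu h2 h3 _
    (fun a => if a ∈ K then k0 else a) le_rfl (fun k hk => by simp [hk, hk0])
  refine le_trans ?_ hcl
  unfold Sf
  rw [Finset.filter_true_of_mem]
  · refine Finset.sum_le_sum fun Y hY => ?_
    have hYD : Y ⊆ D := fun a ha => (Finset.mem_sdiff.1 ((mem_fam.1 hY).1 ha)).1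
    unfold Wf
    rw [← Finset.prod_const]
    refine Finset.prod_le_prod (fun _ _ => hlam) fun e he => ?_
    have hends : G.x e ∈ D ∧ G.y e ∈ D := by
      rw [TB.mem_cut] at he
      rcases he with ⟨h1, h2⟩ | ⟨h1, h2⟩
      · exact ⟨hYD h1, (Finset.mem_sdiff.1 h2).1⟩
      · exact ⟨(Finset.mem_sdiff.1 h1).1, hYD h2⟩
    apply le_mul_of_one_le_right hlam
    rw [Real.one_le_exp_iff]
    exact add_nonneg (hf_nonneg hc hends.1) (hf_nonneg hc hends.2)
  · intro Y hY a ha b hb hab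
    obtain ⟨h4, _, _, _⟩ := mem_fam.1 hY
    have hYK : ∀ x, x ∈ Y → x ∉ K := fun x hx => (Finset.mem_sdiff.1 (h4 hx)).2
    simp only at hab
    by_cases haK : a ∈ K
    · by_cases hbK : b ∈ K
      · exact ⟨fun h => absurd haK (hYK a h), fun h => absurd hbK (hYK b h)⟩
      · rw [if_pos haK, if_neg hbK] at hab
        exact absurd (hab ▸ hk0) hbK
    · by_cases hbK : b ∈ K
      · rw [if_neg haK, if_pos hbK] at hab
        exact absurd (hab.symm ▸ hk0) haK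
      · rw [if_neg haK, if_neg hbK] at hab
        rw [hab]


section D9
variable {V I : Type} [DecidableEq V] [DecidableEq I] [Fintype V] [Fintype I] {G : MG V I}
variable {q : ℝ} {X : Finset V} {s₁ : ℕ} {a₀ A₀ K₀ a A K₁ B : ℝ}

/-- the gluing step, two-sided -/
theorem ldiff {n : ℕ} {ε : ℝ} (hLL : LL G q X n)
    (par : ∀ O, Outer G X O → Par G q X O s₁ a₀ A₀ K₀ a A (2 * K₁) B (Q1 G X K₁)
      (fun S => 2 * ((cut G S (X \ S)).card : ℝ)) (fun S => S ≠ X ∧ S ⊆ X))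
    (hqb3 : (q + 1) * ((1 / (q - 1) * Real.exp (CC a A (2 * K₁))) * Real.exp B) ^ 2 ≤ ε)
    (IH0 : ∀ N, LB G q X ∅ s₁ a₀ A₀ (Q0 G X K₀) (fun S => 2 * S.card ≤ X.card) n N)
    (IH1 : ∀ O, Outer G X O → ∀ N, LB G q X O s₁ a A (Q1 G X K₁) (fun S => S ≠ X ∧ S ⊆ X) n N) :
    ∀ O, Outer G X O → ∀ D K, D ⊆ X → K ⊆ D → K.Nonempty → cut G (D \ K) (X \ D) = ∅ →
      (D \ K).card ≤ n + 1 → ∀ v ∈ D \ K, ∀ r : Setoid V, mg K ≤ r → Free r (D \ K) →
      |m G q r (E G D ∪ O) - m G q (r ⊔ mg (insert v K)) (E G D ∪ O)| ≤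
        ε * m G q (r ⊔ mg (insert v K)) (E G D ∪ O) := by
  classical
  intro O hO D K hDX hKD hK hcut hcard v hv r hr hfree
  have pr1 := par O hO
  have hX := pr1.hX
  obtain ⟨h, hRef, hcutZ⟩ := cfg_L (s₁ := s₁) hX hDX hKD hK hcut hv
  obtain ⟨k₀, hk₀⟩ := hK
  have hvD : v ∈ D := (Finset.mem_sdiff.mp hv).1
  have hvK : v ∉ K := (Finset.mem_sdiff.mp hv).2
  have hDΔ : D ∪ (X \ D) = X := Finset.union_sdiff_of_subset hDX
  have hn : (D \ insert v K).card ≤ n := by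
    have h1 : D \ insert v K = (D \ K).erase v := by
      ext x; simp only [Finset.mem_sdiff, Finset.mem_insert, Finset.mem_erase]; tauto
    rw [h1, Finset.card_erase_of_mem hv]; omega
  have hLC := lc_of_ll hO hLL h hn
  have hZX : ∀ Z, Z ⊆ D \ K → Z ≠ X := by
    rintro Z hZ rfl
    exact (Finset.mem_sdiff.mp (hZ (hDX (hKD hk₀)))).2 hk₀
  have h2 : ∀ Z, Z ⊆ D \ K → Z.Nonempty → 2 ≤ (cut G Z (D \ Z)).card := by
    intro Z hZ hZn
    rw [hcutZ Z hZ]
    exact hX.two Z (hZ.trans (Finset.sdiff_subset.trans hDX)) hZn (hZX Z hZ)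
  have hiso : ∀ Z, Z ⊆ D \ K → Z.Nonempty →
      (11 / 500 : ℝ) * ((min Z.card (D \ Z).card : ℕ) : ℝ) ^ ((1 : ℝ) / 3) ≤
          ((cut G Z (D \ Z)).card : ℝ) := by
    intro Z hZ hZn
    rw [hcutZ Z hZ]
    have h3 := hX.iso Z (hZ.trans (Finset.sdiff_subset.trans hDX)) hZn (hZX Z hZ)
    have h4 : gg (min Z.card (D \ Z).card) ≤ gg (min Z.card (X \ Z).card) :=
      gg_mono (min_le_min le_rfl (Finset.card_le_card (Finset.sdiff_subset_sdiff hDX le_rfl)))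
    have h5 : (11 / 500 : ℝ) * ((min Z.card (D \ Z).card : ℕ) : ℝ) ^ ((1 : ℝ) / 3)
        = gg (min Z.card (D \ Z).card) / 50 := by
      unfold gg; ring
    have h6 := gg_nonneg (min Z.card (D \ Z).card)
    rw [h5]; linarith
  have hu : v ∈ insert v K \ K := Finset.mem_sdiff.mpr ⟨Finset.mem_insert_self _ _, hvK⟩
  have herase : ((insert v K \ K).erase v).card = 0 := by
    rw [Finset.card_eq_zero]
    ext x; simp only [Finset.mem_erase, Finset.mem_sdiff, Finset.mem_insert, Finset.notMem_empty, iff_false]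
    tauto
  have hfreeW : Free r (D \ insert v K) := by
    intro b hb c hc
    exact hfree b (Finset.sdiff_subset_sdiff le_rfl (Finset.subset_insert _ _) hb) c hc
  have hrel : (r ⊔ mg (insert v K)) k₀ v := by
    have : mg (insert v K) ≤ r ⊔ mg (insert v K) := le_sup_right
    exact this (Or.inr ⟨Finset.mem_insert_of_mem hk₀, Finset.mem_insert_self _ _⟩)
  have hkv : k₀ ≠ v := fun hh => hvK (hh ▸ hk₀)
  have hnn : 0 ≤ m G q (r ⊔ mg (insert v K)) (E G D ∪ O) := by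
    refine pr1.hH.nn _ _ (Or.inl ?_)
    intro hh
    rw [hh] at hrel
    exact hkv hrel
  have hq3 := pr1.hq
  have ha1 := pr1.ha1
  have hdiff := exp_to_bd hq3 hO hDX h.hKW h.hWD hk₀ hu h.con hLC (CC a A (2 * K₁)) 0 (by
    intro Y hY
    unfold fam at hY
    rw [Finset.mem_filter, Finset.mem_powerset] at hY
    obtain ⟨hZ, huY, hcZ, hcT⟩ := hY
    have hZn : Y.Nonempty := ⟨v, huY⟩
    have hZD : Y ⊆ D := hZ.trans Finset.sdiff_subset
    obtain ⟨hR1, hR2, ht⟩ := ref_C G h hRef hZ huY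
    have hTΔn : ((D \ Y) ∪ (X \ D)).Nonempty :=
      ⟨k₀, Finset.mem_union_left _ (Finset.mem_sdiff.mpr ⟨hKD hk₀,
        fun hkZ => (Finset.mem_sdiff.mp (hZ hkZ)).2 hk₀⟩)⟩
    have hTΔX : (D \ Y) ∪ (X \ D) ⊆ X :=
      Finset.union_subset (Finset.sdiff_subset.trans hDX) Finset.sdiff_subset
    have hdT : ((D \ Y) ∪ (X \ D)) ≠ X ∧ ((D \ Y) ∪ (X \ D)) ⊆ X := by
      refine ⟨?_, hTΔX⟩
      intro hh
      have : v ∈ (D \ Y) ∪ (X \ D) := by rw [hh]; exact hDX hvD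
      rcases Finset.mem_union.mp this with h' | h'
      · exact (Finset.mem_sdiff.mp h').2 huY
      · exact (Finset.mem_sdiff.mp h').2 hvD
    have hdZ : (Y ∪ ∅) ≠ X ∧ (Y ∪ ∅) ⊆ X := by
      rw [Finset.union_empty]
      exact ⟨hZX Y hZ, hZD.trans hDX⟩
    obtain ⟨WZ, WT, β, hWZ1, hWZ2, hWT1, hWT2, huWZ, hβ, hpb, R, T, hRT, hRTc, hE⟩ :=
      side (dom := fun S => S ≠ X ∧ S ⊆ X) (by linarith) pr1.hH hX hO pr1.ha₀ pr1.ha pr1.hA₀ pr1.hA pr1.hleg h hZ huY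
        hcZ hcT hR1 hR2 (Or.inl (Finset.mem_insert_self _ _)) (n := n) (N₀ := D.card) le_rfl
        (IH0 _) (IH1 O hO _) hn hdZ hdT
    refine ⟨WZ, WT, β, hWZ1, hWZ2, hWT1, hWT2, hβ, hpb, hE.trans (Real.exp_le_exp.mpr ?_)⟩
    have hQX : Q1 G X K₁ X = 0 := by
      unfold Q1
      rw [Finset.sdiff_self]
      have : cut G X ∅ = ∅ := by unfold cut; simp
      rw [this]; simp
    have hq1 : Q0 G X K₀ R + Q1 G X K₁ T + (a₀ + 1) * (2 * ((cut G R (X \ R)).card : ℝ))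
        ≤ (2 * K₁) * ((cut G Y (D \ Y)).card : ℝ) := by
      rcases hRT with ⟨rfl, rfl⟩ | ⟨rfl, rfl⟩
      · have := pr1.lev.q1 R ((D \ R) ∪ (X \ D)) (hZD.trans h.hD) hTΔX (disj_split hZD h.disj) hZn hTΔn hRTc
        rw [union_split hZD, cut_dead G h hZ, hDΔ, hQX] at this
        linarith
      · have := pr1.lev.q1 ((D \ T) ∪ (X \ D)) T hTΔX (hZD.trans h.hD) (disj_split hZD h.disj).symm hTΔn hZn hRTc
        rw [Finset.union_comm _ T, union_split hZD, cut_comm ((D \ T) ∪ (X \ D)) T, cut_dead G h hZ, hDΔ, hQX] at this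
        linarith
    have htt : ((cut G (Y ∪ ∅) (X \ (Y ∪ ∅))).card : ℝ) +
        ((cut G ((D \ Y) ∪ (X \ D)) (X \ ((D \ Y) ∪ (X \ D)))).card : ℝ)
        = 2 * ((cut G Y (D \ Y)).card : ℝ) := by
      have h0 : (cut G (D ∪ (X \ D)) (X \ (D ∪ (X \ D)))).card = 0 := by
        rw [hDΔ, Finset.sdiff_self]; unfold cut; simp
      rw [h0] at ht
      have : (cut G (Y ∪ ∅) (X \ (Y ∪ ∅))).card +
        (cut G ((D \ Y) ∪ (X \ D)) (X \ ((D \ Y) ∪ (X \ D)))).card = 2 * (cut G Y (D \ Y)).card := by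
        omega
      exact_mod_cast this
    rw [htt, herase]
    unfold CC
    push_cast
    linarith [hq1]) r hr hfreeW hnn (fun _ => 1) (fun _ => by simp)
  have hcount := pr1.hcount D K v hKD ⟨k₀, hk₀⟩ hv h2 hiso (1 / (q - 1) * Real.exp (CC a A (2 * K₁)))
    (by have : 0 < q - 1 := by linarith
        positivity) pr1.hqb1
  simp only [one_mul] at hdiff
  rw [← m_union G q (outer_disj hO hDX).symm r, ← m_union G q (outer_disj hO hDX).symm (r ⊔ pr k₀ v),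
    Real.exp_zero] at hdiff
  have hsup : r ⊔ mg (insert v K) = r ⊔ pr k₀ v := by
    rw [mg_insert hk₀, ← sup_assoc, sup_eq_left.mpr hr]
  rw [hsup] at hnn hdiff ⊢
  have h1 : (q + 1) * (∑ Y ∈ fam G D K v, (1 / (q - 1) * Real.exp (CC a A (2 * K₁))) ^ (cut G Y (D \ Y)).card) ≤ ε :=
    (mul_le_mul_of_nonneg_left hcount (by linarith)).trans hqb3
  refine hdiff.trans ?_
  rw [mul_one]
  exact mul_le_mul_of_nonneg_right h1 hnn

end D9

end Pool.Agent.Y428.Tu
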