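import Pool.Agent.Y428.Tu.Cst
set_option autoImplicit false
set_option linter.unusedSectionVars false
set_option linter.unusedVariables false
set_option maxHeartbeats 1000000

/-! Real flow roots: explicit constants, the induction. -/

namespace Pool.Agent.Y428.Tu

open Finset Pool.Agent.H753R2.FR

/-- size bound -/
noncomputable def sz : ℝ := 93914
noncomputable def ca : ℝ := 2 * (3 * sz) ^ 2 + 3 * sz + 1
noncomputable def cK : ℝ := ca + sz ^ 2 + sz + 2
noncomputable def cA : ℝ := ca + cK + 2 * sz ^ 2 + 2 * sz + 4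
noncomputable def cL : ℝ := 2 * (cK + 2 * (ca + 1) + (2 * ca + 4 * cA + 4))
/-- the final constant -/
noncomputable def MM : ℝ := Real.exp (CC ca cA (2 * cL)) * Real.exp BB

theorem gg_sz : ∀ s, 93914 < s → 50 < gg s := by
  intro s hs
  have h1 : (500 / 11 : ℝ) < (s : ℝ) ^ ((1 : ℝ) / 3) := by
    refine lt_of_pow_lt_pow_left₀ 3 (C_nn s) ?_
    rw [C_cube]
    have h2 : (93915 : ℝ) ≤ (s : ℝ) := by exact_mod_cast hs
    refine lt_of_lt_of_le ?_ h2
    norm_num
  unfold gg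
  linarith

theorem BB_nn : 0 ≤ BB := by
  unfold BB
  have := TB.B0_pos (c := 11 / 500) (by norm_num)
  positivity

theorem BB_le : BB ≤ 548 := by
  unfold BB TB.B0
  have h1 : (0.148 : ℝ) ≤ Real.sqrt (11 / 500) := by
    rw [Real.le_sqrt' (by norm_num)]
    norm_num
  have h2 : (2 : ℝ) ^ (-(1 : ℝ) / 6) ≤ 0.9 := by
    have h3 : (0 : ℝ) ≤ (2 : ℝ) ^ (-(1 : ℝ) / 6) := by positivity
    refine le_of_pow_le_pow_left₀ (n := 6) (by norm_num) (by norm_num) ?_
    rw [← Real.rpow_natCast, ← Real.rpow_mul (by norm_num)]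
    norm_num
  have h4 : (0.0148 : ℝ) ≤ Real.sqrt (11 / 500) * (1 - (2 : ℝ) ^ (-(1 : ℝ) / 6)) := by
    have h5 : (0.148 : ℝ) * 0.1 ≤ Real.sqrt (11 / 500) * (1 - (2 : ℝ) ^ (-(1 : ℝ) / 6)) :=
      mul_le_mul h1 (by linarith) (by norm_num) (Real.sqrt_nonneg _)
    refine le_trans (by norm_num) h5
  have h6 : 4 / (Real.sqrt (11 / 500) * (1 - (2 : ℝ) ^ (-(1 : ℝ) / 6))) ≤ 271 := by
    rw [div_le_iff₀ (by linarith)]
    linarith
  linarith

theorem basics : 1 ≤ ca ∧ 0 ≤ cK ∧ 0 ≤ cA ∧ cK ≤ cL ∧ 1 ≤ MM ∧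
    CC ca cA (2 * cK) ≤ CC ca cA (2 * cL) := by
  have hs0 : (0:ℝ) ≤ sz := by unfold sz; norm_num
  have hs2 : (0:ℝ) ≤ sz ^ 2 := by positivity
  have ha₀1 : 1 ≤ ca := by unfold ca; nlinarith
  have hK₀1 : 0 ≤ cK := by unfold cK; linarith
  have hA₀1 : 0 ≤ cA := by unfold cA; linarith
  have hK₁1 : cK ≤ cL := by unfold cL; linarith
  have hCC1 : 0 ≤ CC ca cA (2 * cL) := by unfold CC; linarith
  have hM1 : 1 ≤ MM := by
    unfold MM
    have h1 := Real.one_le_exp hCC1
    have h2 := Real.one_le_exp BB_nn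
    nlinarith
  have hCC0 : CC ca cA (2 * cK) ≤ CC ca cA (2 * cL) := by unfold CC; linarith
  exact ⟨ha₀1, hK₀1, hA₀1, hK₁1, hM1, hCC0⟩

theorem MM_le : 8 * MM ^ 2 + 8 ≤ (10 : ℝ) ^ (10 ^ 13) := by
  have h1 : CC ca cA (2 * cL) ≤ 10407433965996 := by
    unfold CC cL cA cK ca sz
    norm_num
  have h2 : MM ≤ Real.exp (10407433966544) := by
    unfold MM
    rw [← Real.exp_add]
    refine Real.exp_le_exp.mpr ?_
    have := BB_le
    linarith
  have h0 : 0 ≤ MM := by linarith [basics.2.2.2.2.1]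
  have h3 : MM ^ 2 ≤ Real.exp (20814867933088) := by
    calc MM ^ 2 ≤ (Real.exp (10407433966544)) ^ 2 := pow_le_pow_left₀ h0 h2 2
      _ = Real.exp (20814867933088) := by
        rw [← Real.exp_nat_mul]
        congr 1
        norm_num
  have h4 : (16 : ℝ) ≤ Real.exp 4 := by
    have h5 := Real.exp_one_gt_d9
    have h6 : Real.exp 4 = Real.exp 1 ^ 4 := by
      rw [← Real.exp_nat_mul]
      congr 1
      norm_num
    rw [h6]
    have h7 : (2 : ℝ) ^ 4 ≤ Real.exp 1 ^ 4 := pow_le_pow_left₀ (by norm_num) (by linarith) 4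
    linarith
  have h8 : (1 : ℝ) ≤ MM ^ 2 := by
    have := basics.2.2.2.2.1
    nlinarith
  have h9 : 8 * MM ^ 2 + 8 ≤ Real.exp 4 * Real.exp (20814867933088) := by
    have h10 : (0 : ℝ) < Real.exp (20814867933088) := Real.exp_pos _
    nlinarith
  refine h9.trans ?_
  rw [← Real.exp_add]
  have h11 : Real.exp (21 * ((10 ^ 12 : ℕ) : ℝ)) ≤ (10 : ℝ) ^ (10 ^ 13) := by
    have h12 : ∀ N : ℕ, Real.exp (21 * (N : ℝ)) ≤ (10 : ℝ) ^ (10 * N) := by
      intro N
      rw [mul_comm, Real.exp_nat_mul, pow_mul]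
      refine pow_le_pow_left₀ (Real.exp_pos _).le ?_ N
      have h13 : Real.exp 21 = Real.exp 1 ^ 21 := by
        rw [← Real.exp_nat_mul]
        congr 1
        norm_num
      rw [h13]
      have h14 : Real.exp 1 ^ 21 ≤ (2.8 : ℝ) ^ 21 :=
        pow_le_pow_left₀ (Real.exp_pos _).le (by linarith [Real.exp_one_lt_d9]) 21
      refine h14.trans ?_
      norm_num
    have h15 := h12 (10 ^ 12)
    have h16 : 10 * 10 ^ 12 = 10 ^ 13 := by norm_num
    rw [h16] at h15
    exact h15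
  refine le_trans (Real.exp_le_exp.mpr ?_) h11
  have h17 : ((10 ^ 12 : ℕ) : ℝ) = 1000000000000 := by norm_num
  rw [h17]
  norm_num

section
variable {V I : Type} [DecidableEq V] [DecidableEq I] [Fintype V] [Fintype I] {G : MG V I}
variable {q : ℝ} {X : Finset V}

theorem pars (hq : 4 * MM ^ 2 + 3 ≤ q) (hH : Hyp G q) (hX : Thin G X) :
    Par G q X ∅ 93914 ca cA cK ca cA (2 * cK) BB (Q0 G X cK) (fun _ => 0)
      (fun S => 2 * S.card ≤ X.card) ∧
    (∀ O, Outer G X O → Par G q X O 93914 ca cA cK ca cA (2 * cL) BB (Q1 G X cL)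
      (fun S => 2 * ((cut G S (X \ S)).card : ℝ)) (fun S => S ≠ X ∧ S ⊆ X)) ∧
    (q + 1) * ((1 / (q - 1) * Real.exp (CC ca cA (2 * cL))) * Real.exp BB) ^ 2 ≤ 1 / 2 := by
  obtain ⟨ha₀1, hK₀1, hA₀1, hK₁1, hM1, hCC0⟩ := basics
  have hcast : ((93914 : ℕ) : ℝ) = sz := by unfold sz; norm_num
  have hs0 : (0:ℝ) ≤ sz := by unfold sz; norm_num
  have hB0 := BB_nn
  have hq3 : 3 ≤ q := by nlinarith
  have hq1 : 0 < q - 1 := by linarith
  have hqM : 4 * MM ^ 2 ≤ q - 1 := by linarith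
  have hlam1 : (1 / (q - 1) * Real.exp (CC ca cA (2 * cL))) * Real.exp BB = MM / (q - 1) := by
    unfold MM; field_simp
  have hlam0 : (1 / (q - 1) * Real.exp (CC ca cA (2 * cK))) * Real.exp BB ≤ MM / (q - 1) := by
    rw [← hlam1]
    have := Real.exp_le_exp.mpr hCC0
    have h1 : 0 ≤ 1 / (q - 1) := by positivity
    exact mul_le_mul_of_nonneg_right (mul_le_mul_of_nonneg_left this h1) (Real.exp_pos _).le
  have hMq : MM / (q - 1) ≤ 1 := by
    rw [div_le_one hq1]; nlinarith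
  have hMq2 : (q + 1) * (MM / (q - 1)) ^ 2 ≤ 1 / 2 := by
    rw [div_pow, mul_div_assoc', div_le_iff₀ (by positivity)]
    nlinarith [mul_nonneg (by linarith : (0:ℝ) ≤ q - 3) (sq_nonneg MM), mul_le_mul_of_nonneg_right hqM hq1.le]
  have hMq0 : 0 ≤ MM / (q - 1) := by positivity
  have hlam00 : 0 ≤ (1 / (q - 1) * Real.exp (CC ca cA (2 * cK))) * Real.exp BB := by positivity
  have hcount : ∀ (D K : Finset V) (u : V), K ⊆ D → K.Nonempty → u ∈ D \ K →
      (∀ Z, Z ⊆ D \ K → Z.Nonempty → 2 ≤ (cut G Z (D \ Z)).card) →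
      (∀ Z, Z ⊆ D \ K → Z.Nonempty →
        (11 / 500 : ℝ) * ((min Z.card (D \ Z).card : ℕ) : ℝ) ^ ((1 : ℝ) / 3) ≤
          ((cut G Z (D \ Z)).card : ℝ)) →
      ∀ lam : ℝ, 0 ≤ lam → lam * Real.exp BB ≤ 1 →
        ∑ Y ∈ fam G D K u, lam ^ (cut G Y (D \ Y)).card ≤ (lam * Real.exp BB) ^ 2 :=
    fun D K u => counting_ex V I G D K u
  have par0 : Par G q X ∅ 93914 ca cA cK ca cA (2 * cK) BB (Q0 G X cK) (fun _ => 0)
      (fun S => 2 * S.card ≤ X.card) :=
    { hq := hq3, hH := hH, hX := hX, hO := outer_empty X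
      lev := lev0 G hX hK₀1 (by unfold cA cK ca; nlinarith [sq_nonneg sz]) 93914
      ha₀ := by linarith
      ha := le_rfl
      hA₀ := hA₀1
      hA := le_rfl
      hK₀ := hK₀1
      hleg := by intro R _ _ _; rw [legs_empty]; simp
      hS := by rw [hcast]; unfold ca; linarith
      ha1 := ha₀1
      hAS := by rw [hcast]; unfold cA; linarith
      hs₁ := gg_sz
      hcount := hcount
      hqb1 := hlam0.trans hMq
      hqb2 := by
        have h1 : ((1 / (q - 1) * Real.exp (CC ca cA (2 * cK))) * Real.exp BB) ^ 2 ≤ (MM / (q - 1)) ^ 2 :=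
          pow_le_pow_left₀ hlam00 hlam0 2
        have h2 := mul_le_mul_of_nonneg_left h1 (by linarith : (0:ℝ) ≤ q + 1)
        linarith }
  have par1 : ∀ O, Outer G X O → Par G q X O 93914 ca cA cK ca cA (2 * cL) BB (Q1 G X cL)
      (fun S => 2 * ((cut G S (X \ S)).card : ℝ)) (fun S => S ≠ X ∧ S ⊆ X) := by
    intro O hO
    exact
    { hq := hq3, hH := hH, hX := hX, hO := hO
      lev := lev1 G hX (by linarith) hK₀1 (by linarith) hA₀1 (by unfold cL; linarith) 93914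
      ha₀ := by linarith
      ha := le_rfl
      hA₀ := hA₀1
      hA := le_rfl
      hK₀ := hK₀1
      hleg := by intro R h1 h2 h3; exact legs_le G hX hO h1 h2 h3
      hS := by rw [hcast]; unfold ca; linarith
      ha1 := ha₀1
      hAS := by rw [hcast]; unfold cA; linarith
      hs₁ := gg_sz
      hcount := hcount
      hqb1 := by rw [hlam1]; exact hMq
      hqb2 := by rw [hlam1]; linarith }
  exact ⟨par0, par1, by rw [hlam1]; exact hMq2⟩

theorem main_ex (hq : 4 * MM ^ 2 + 3 ≤ q) (hH : Hyp G q) (hX : Thin G X) : ∀ n, LL G q X n := by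
  obtain ⟨par0, par1, hh⟩ := pars hq hH hX
  intro n
  induction n with
  | zero =>
      intro O hO D K hDX hKD hK hcut hcard v hv
      have : (D \ K).card = 0 := by omega
      rw [Finset.card_eq_zero] at this
      rw [this] at hv
      simp at hv
  | succ n ih =>
      have hl0 : ∀ N, LB G q X ∅ 93914 ca cA (Q0 G X cK) (fun S => 2 * S.card ≤ X.card) n N :=
        fun N => lb_level par0 ih N (fun N' _ h => h)
      have hl1 : ∀ O, Outer G X O → ∀ N,
          LB G q X O 93914 ca cA (Q1 G X cL) (fun S => S ≠ X ∧ S ⊆ X) n N :=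
        fun O hO N => lb_level (par1 O hO) ih N (fun N' _ _ => hl0 N')
      exact lstep ih par1 hh hl0 hl1

/-- gluing one more vertex of a thin set changes the flow polynomial by a factor close to one -/
theorem glue_ex (hq : 4 * MM ^ 2 + 3 ≤ q) (hH : Hyp G q) (hX : Thin G X) {δ : ℝ}
    (hδ : 4 * MM ^ 2 ≤ δ * q) {K : Finset V} (hK : K.Nonempty) (hKX : K ⊆ X) {v : V}
    (hv : v ∈ X \ K) :
    |m G q (mg K) univ - m G q (mg (insert v K)) univ| ≤ δ * m G q (mg (insert v K)) univ := by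
  obtain ⟨par0, par1, hh⟩ := pars hq hH hX
  have hLL := main_ex hq hH hX
  obtain ⟨ha₀1, hK₀1, hA₀1, hK₁1, hM1, hCC0⟩ := basics
  have hq3 : 3 ≤ q := by nlinarith
  have hq1 : 0 < q - 1 := by linarith
  set n := (X \ K).card with hn
  have hl0 : ∀ N, LB G q X ∅ 93914 ca cA (Q0 G X cK) (fun S => 2 * S.card ≤ X.card) n N :=
    fun N => lb_level par0 (hLL n) N (fun N' _ h => h)
  have hl1 : ∀ O, Outer G X O → ∀ N,
      LB G q X O 93914 ca cA (Q1 G X cL) (fun S => S ≠ X ∧ S ⊆ X) n N :=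
    fun O hO N => lb_level (par1 O hO) (hLL n) N (fun N' _ _ => hl0 N')
  have hb : (q + 1) * ((1 / (q - 1) * Real.exp (CC ca cA (2 * cL))) * Real.exp BB) ^ 2 ≤ δ := by
    have h1 : (1 / (q - 1) * Real.exp (CC ca cA (2 * cL))) * Real.exp BB = MM / (q - 1) := by
      unfold MM; field_simp
    rw [h1, div_pow, mul_div_assoc', div_le_iff₀ (by positivity)]
    have h2 : (q + 1) * q ≤ 4 * (q - 1) ^ 2 := by nlinarith
    have hq0 : 0 < q := by linarith
    have h3 : (q + 1) * MM ^ 2 * q ≤ δ * (q - 1) ^ 2 * q := by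
      calc (q + 1) * MM ^ 2 * q = (q + 1) * q * MM ^ 2 := by ring
        _ ≤ 4 * (q - 1) ^ 2 * MM ^ 2 := mul_le_mul_of_nonneg_right h2 (sq_nonneg _)
        _ = (4 * MM ^ 2) * (q - 1) ^ 2 := by ring
        _ ≤ (δ * q) * (q - 1) ^ 2 := mul_le_mul_of_nonneg_right hδ (sq_nonneg _)
        _ = _ := by ring
    exact le_of_mul_le_mul_right h3 hq0
  obtain ⟨O, hO⟩ : ∃ O : Finset I, O = univ.filter (fun e => ¬ (G.x e ∈ X ∧ G.y e ∈ X)) :=
    ⟨_, rfl⟩
  have hOut : Outer G X O := by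
    intro e he
    rw [hO] at he
    exact (Finset.mem_filter.1 he).2
  have hEO : E G X ∪ O = univ := by
    rw [hO]
    unfold E
    exact Finset.filter_union_filter_not_eq _ _
  have hcut : cut G (X \ K) (X \ X) = ∅ := by
    unfold cut
    rw [Finset.sdiff_self]
    simp
  have h1 := ldiff (hLL n) par1 hb hl0 hl1 O hOut X K (Finset.Subset.refl X) hKX hK hcut
    (by omega) v hv (mg K) le_rfl (by
      intro a ha b hab
      have hab' : a = b ∨ (a ∈ K ∧ b ∈ K) := hab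
      rcases hab' with h | h
      · exact h
      · exact absurd h.1 (Finset.mem_sdiff.1 ha).2)
  have h2 : mg K ⊔ mg (insert v K) = mg (insert v K) := by
    rw [sup_eq_right]
    intro a b hab
    have hab' : a = b ∨ (a ∈ K ∧ b ∈ K) := hab
    rcases hab' with h | h
    · exact Or.inl h
    · exact Or.inr ⟨Finset.mem_insert_of_mem h.1, Finset.mem_insert_of_mem h.2⟩
  rwa [h2, hEO] at h1

end

end Pool.Agent.Y428.Tu
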