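import Pool.Agent.Y428.Tu.Cst2
set_option autoImplicit false
set_option linter.unusedSectionVars false
set_option linter.unusedVariables false
set_option maxHeartbeats 1000000

/-! Two-sided bounds for the flow polynomial of every bridgeless graph. -/

namespace Pool.Agent.Y428.Tu

open Finset Pool.Agent.H753R2.FR

theorem flow_pos_ex {q : ℝ} (hq : 4 * MM ^ 2 + 3 ≤ q) :
    ∀ (n k : ℕ) (G : MG (Fin n) (Fin k)), 0 < n → Bridgeless G → 0 < m G q ⊥ univ := by
  intro n k G hn hG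
  by_contra hneg
  push Not at hneg
  have hM := basics.2.2.2.2.1
  have hq3 : (3 : ℝ) ≤ q := by nlinarith
  obtain ⟨n', k', G', hn', hb', hm', hH, hpos, hdeg, hloop, hsimple⟩ :=
    min_ce q (by linarith) ⟨n, k, G, hn, hG, hneg⟩
  haveI : Nonempty (Fin n') := ⟨⟨0, hn'⟩⟩
  obtain ⟨X, hX⟩ := exists_thin G' hdeg hloop hsimple
  have hLL : ∀ N, LL G' q X N := main_ex hq hH hX
  have h2 := hX.two_le
  obtain ⟨a, ha, b, hb, hab⟩ := Finset.one_lt_card.1 (by omega : 1 < X.card)
  have h3 := D6_nonpos G' hLL hm' (x₀ := a) X (Finset.insert_subset ha (Finset.Subset.refl X))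
  rw [Finset.insert_eq_of_mem ha] at h3
  have h4 : mg X ≠ ⊥ := by
    intro h
    have h5 : mg X a b := Or.inr ⟨ha, hb⟩
    rw [h] at h5
    exact hab h5
  exact absurd (hpos (mg X) h4) (not_lt.2 h3)

theorem ok_all {q : ℝ} (hq : 4 * MM ^ 2 + 3 ≤ q) (n k : ℕ) : E1.Ok q n k :=
  fun G hn hb => flow_pos_ex hq n k G hn hb

theorem hyp_all {q : ℝ} (hq : 4 * MM ^ 2 + 3 ≤ q) {n k : ℕ} (hn : 0 < n)
    (G : MG (Fin n) (Fin k)) : Hyp G q := by
  have hM := basics.2.2.2.2.1
  have hq1 : (1 : ℝ) < q := by nlinarith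
  have hmin : E1.Min q n k := ⟨fun n' k' _ => ok_all hq n' k', fun k' _ => ok_all hq n k'⟩
  refine ⟨E1.nn_aux hmin hn hq1 G, ?_⟩
  intro r S a b hS
  exact E1.mono_aux hmin hn hq1 G r S a b (by simpa using hS)

/-- the two-sided bound -/
def Bnd (q δ : ℝ) (n c : ℕ) (x : ℝ) : Prop :=
  (1 - δ) ^ (n - c) * q ^ c ≤ x ∧ x ≤ (1 + δ) ^ (n - c) * q ^ c

/-- the two-sided bound for all bridgeless graphs with n vertices and k edges -/
def Tw (q δ : ℝ) (n k : ℕ) : Prop :=
  ∀ G : MG (Fin n) (Fin k), 0 < n → Bridgeless G → Bnd q δ n (cl (conn G univ)) (m G q ⊥ univ)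

section transport
variable {V I : Type} [DecidableEq V] [DecidableEq I] [Fintype V] [Fintype I]

/-- every minor is (up to renaming) a graph on `Fin n` with edges `Fin k` -/
theorem exists_fin' (q : ℝ) (G : MG V I) (r : Setoid V) (S : Finset I) :
    ∃ G' : MG (Fin (cl r)) (Fin S.card), m G' q ⊥ univ = m G q r S ∧
      ((∀ e ∈ S, (r ⊔ conn G (S.erase e)) (G.x e) (G.y e)) → Bridgeless G') ∧
      cl (conn G' univ) = cl (r ⊔ conn G S) := by
  classical
  have hfin : Finite (Quotient r) := Quotient.finite r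
  let eV : Quotient r ≃ Fin (cl r) := Finite.equivFin (Quotient r)
  let φ : V → Fin (cl r) := fun v => eV (Quotient.mk r v)
  have hφ : Function.Surjective φ := eV.surjective.comp Quotient.mk_surjective
  let ψ : Fin S.card ↪ I := S.equivFin.symm.toEmbedding.trans (Function.Embedding.subtype _)
  have hψ : (univ : Finset (Fin S.card)).map ψ = S := by
    rw [← Finset.map_map, Finset.map_univ_equiv, ← Finset.attach_eq_univ, Finset.attach_map_val]
  have hψm : ∀ i, ψ i ∈ S := fun i => (S.equivFin.symm i).2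
  let G' : MG (Fin (cl r)) (Fin S.card) := ⟨fun i => φ (G.x (ψ i)), fun i => φ (G.y (ψ i))⟩
  have hr : Setoid.comap φ ⊥ = r := by
    ext a b
    rw [Setoid.comap_rel]
    show φ a = φ b ↔ r a b
    simp only [φ, EmbeddingLike.apply_eq_iff_eq]
    exact Quotient.eq
  refine ⟨G', ?_, ?_, ?_⟩
  · rw [← E1.m_comap q φ hφ ψ G G' (fun _ => rfl) (fun _ => rfl) ⊥ univ, hr, hψ]
  · intro h i
    have h1 := h (ψ i) (hψm i)
    have h2 : S.erase (ψ i) = ((univ : Finset (Fin S.card)).erase i).map ψ := by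
      rw [Finset.map_erase, hψ]
    have h3 := E1.conn_comap φ ψ G G' (fun _ => rfl) (fun _ => rfl) ⊥ (univ.erase i)
    rw [hr] at h3
    rw [h2, h3, Setoid.comap_rel, bot_sup_eq] at h1
    exact h1
  · have h3 := E1.conn_comap φ ψ G G' (fun _ => rfl) (fun _ => rfl) ⊥ univ
    rw [hr, hψ, bot_sup_eq] at h3
    rw [h3, E1.cl_comap φ hφ]

theorem tw_minor [Nonempty V] {q δ : ℝ} (G : MG V I) (r : Setoid V) (S : Finset I)
    (h : Tw q δ (cl r) S.card) (hb : ∀ e ∈ S, (r ⊔ conn G (S.erase e)) (G.x e) (G.y e)) :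
    Bnd q δ (cl r) (cl (r ⊔ conn G S)) (m G q r S) := by
  obtain ⟨G', h1, h2, h3⟩ := exists_fin' q G r S
  rw [← h1, ← h3]
  exact h G' (E1.cl_pos r) (h2 hb)

theorem cl_le_of_le {r s : Setoid V} (h : r ≤ s) : cl s ≤ cl r := cl_anti h

end transport

theorem bnd_lo {q δ p x : ℝ} {n c : ℕ} (hδ : δ ≤ 1) (hp : 1 - δ ≤ p) (hp0 : p ≤ 1 + δ)
    (hc : c ≤ n) (hx : 0 ≤ x) (h : Bnd q δ n c x) : Bnd q δ (n + 1) c (p * x) := by
  obtain ⟨h1, h2⟩ := h
  have h3 : n + 1 - c = (n - c) + 1 := by omega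
  unfold Bnd
  rw [h3, pow_succ, pow_succ]
  constructor
  · calc (1 - δ) ^ (n - c) * (1 - δ) * q ^ c = (1 - δ) * ((1 - δ) ^ (n - c) * q ^ c) := by ring
      _ ≤ (1 - δ) * x := mul_le_mul_of_nonneg_left h1 (by linarith)
      _ ≤ p * x := mul_le_mul_of_nonneg_right hp hx
  · have hp1 : 0 ≤ 1 + δ := by linarith
    calc p * x ≤ (1 + δ) * x := mul_le_mul_of_nonneg_right hp0 hx
      _ ≤ (1 + δ) * ((1 + δ) ^ (n - c) * q ^ c) := mul_le_mul_of_nonneg_left h2 hp1
      _ = _ := by ring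

/-- a thin set is connected -/
theorem thin_conn {V I : Type} [DecidableEq V] [DecidableEq I] [Fintype V] [Fintype I]
    {G : MG V I} {X : Finset V} (hX : Thin G X) : mg X ≤ conn G univ := by
  classical
  rw [mg_le_iff]
  intro a ha b hb
  by_contra hab
  have h1 := hX.two (X.filter (fun c => (conn G univ) a c)) (Finset.filter_subset _ _)
    ⟨a, Finset.mem_filter.2 ⟨ha, (conn G univ).refl a⟩⟩ (by
      intro h
      have : b ∈ X.filter (fun c => (conn G univ) a c) := by rw [h]; exact hb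
      exact hab (Finset.mem_filter.1 this).2)
  obtain ⟨e, he⟩ := Finset.card_pos.1 (by omega : 0 < (cut G (X.filter (fun c => (conn G univ) a c))
    (X \ X.filter (fun c => (conn G univ) a c))).card)
  have hedge : (conn G univ) (G.x e) (G.y e) :=
    (Finset.le_sup (f := fun e => pr (G.x e) (G.y e)) (Finset.mem_univ e) :
      pr (G.x e) (G.y e) ≤ conn G univ) (Or.inr ⟨Or.inl rfl, Or.inr rfl⟩)
  simp only [cut, Finset.mem_filter, Finset.mem_univ, true_and, Finset.mem_sdiff, not_and] at he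
  rcases he with ⟨⟨h2, h3⟩, h4, h5⟩ | ⟨⟨h4, h5⟩, h2, h3⟩
  · exact h5 h4 ((conn G univ).trans h3 hedge)
  · exact h5 h4 ((conn G univ).trans h3 ((conn G univ).symm hedge))

theorem conn_loop {V I : Type} [DecidableEq V] [DecidableEq I] [Fintype V] [Fintype I]
    {G : MG V I} {e : I} {S : Finset I} (h : G.x e = G.y e) : conn G (insert e S) = conn G S := by
  rw [conn_insert]
  exact E1.sup_pr_of_rel (by rw [h])

end Pool.Agent.Y428.Tu
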