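import Pool.Agent.Y428.Tu.Two
set_option autoImplicit false
set_option linter.unusedSectionVars false
set_option linter.unusedVariables false
set_option maxHeartbeats 1000000

/-! Two-sided bounds for the flow polynomial of every bridgeless graph: the induction. -/

namespace Pool.Agent.Y428.Tu

open Finset Pool.Agent.H753R2.FR

section
variable {n k : ℕ} {q δ : ℝ}

theorem nonneg_all (hq : 4 * MM ^ 2 + 3 ≤ q) {V I : Type} [DecidableEq V] [DecidableEq I]
    [Fintype V] [Fintype I] [Nonempty V] (G : MG V I) (r : Setoid V) (S : Finset I) :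
    0 ≤ m G q r S := by
  have hM := basics.2.2.2.2.1
  exact E1.nonneg_of_ok (by nlinarith) G r S (ok_all hq _ _)

theorem case_loop (hq : 4 * MM ^ 2 + 3 ≤ q) (ih : ∀ n' k', n' + k' < n + k → Tw q δ n' k')
    (G : MG (Fin n) (Fin k)) (hn : 0 < n) (hb : Bridgeless G) (e : Fin k) (he : G.x e = G.y e) :
    Bnd q δ n (cl (conn G univ)) (m G q ⊥ univ) := by
  have : Nonempty (Fin n) := ⟨⟨0, hn⟩⟩
  have hU : (univ : Finset (Fin k)) = insert e (univ.erase e) := by
    rw [Finset.insert_erase (Finset.mem_univ e)]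
  have h1 : m G q ⊥ univ = m G q ⊥ (univ.erase e) := by
    have := m_loops G q (S := {e}) (O := univ.erase e) ⊥ (by
      intro e' he'
      rw [Finset.mem_singleton] at he'
      subst he'
      exact he)
    rw [← this]
    congr 1
    ext x
    simp
  have h2 : conn G univ = conn G (univ.erase e) := by
    conv_lhs => rw [hU]
    exact conn_loop he
  have hk : 0 < k := lt_of_le_of_lt (Nat.zero_le _) e.2
  have h3 := tw_minor G ⊥ (univ.erase e) (ih _ _ (by
    rw [Finset.card_erase_of_mem (Finset.mem_univ e), Finset.card_univ, Fintype.card_fin, cl_bot,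
      Fintype.card_fin]
    omega)) (by
    intro e' he'
    have hne : e ≠ e' := (Finset.ne_of_mem_erase he').symm
    have h3 := hb e'
    have h4 : univ.erase e' = insert e ((univ.erase e).erase e') := by
      ext x
      simp only [Finset.mem_erase, Finset.mem_univ, and_true, Finset.mem_insert]
      by_cases hx : x = e
      · simp [hx, hne]
      · simp [hx]
    rw [h4, conn_loop he] at h3
    rw [bot_sup_eq]
    exact h3)
  rw [cl_bot, Fintype.card_fin, bot_sup_eq, ← h1, ← h2] at h3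
  exact h3

theorem small_p (hq : 4 * MM ^ 2 + 3 ≤ q) (hδ : 4 * MM ^ 2 ≤ δ * q) :
    0 < 1 / (q - 1) ∧ 1 / (q - 1) ≤ δ ∧ 1 / (q - 1) ≤ 1 / 2 := by
  have hM := basics.2.2.2.2.1
  have h7 : 7 ≤ q := by nlinarith
  have hq0 : 0 < q := by linarith
  have hq1 : 0 < q - 1 := by linarith
  refine ⟨by positivity, ?_, ?_⟩
  · rw [div_le_iff₀ hq1]
    have h4 : 4 ≤ δ * q := by nlinarith
    have hδ0 : 0 < δ := by
      by_contra h
      push Not at h
      have := mul_nonpos_of_nonpos_of_nonneg h hq0.le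
      linarith
    nlinarith
  · rw [div_le_iff₀ hq1]
    linarith

theorem case_par (hq : 4 * MM ^ 2 + 3 ≤ q) (hδ : 4 * MM ^ 2 ≤ δ * q) (hδ1 : δ ≤ 1)
    (ih : ∀ n' k', n' + k' < n + k → Tw q δ n' k')
    (G : MG (Fin n) (Fin k)) (hn : 0 < n) (hb : Bridgeless G) (hl : ∀ e, G.x e ≠ G.y e)
    (e e' : Fin k) (hne : e ≠ e')
    (hp : (G.x e = G.x e' ∧ G.y e = G.y e') ∨ (G.x e = G.y e' ∧ G.y e = G.x e')) :
    Bnd q δ n (cl (conn G univ)) (m G q ⊥ univ) := by
  have hNe : Nonempty (Fin n) := ⟨⟨0, hn⟩⟩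
  obtain ⟨hp0, hp1, hp2⟩ := small_p hq hδ
  have hM := basics.2.2.2.2.1
  have hpr : pr (G.x e') (G.y e') = pr (G.x e) (G.y e) := by
    rcases hp with ⟨h1, h2⟩ | ⟨h1, h2⟩
    · rw [h1, h2]
    · rw [h1, h2, E1.pr_comm]
  have hab := hl e
  have hrel : (pr (G.x e) (G.y e)) (G.x e) (G.y e) := Or.inr ⟨Or.inl rfl, Or.inr rfl⟩
  have hrel' : (pr (G.x e) (G.y e)) (G.x e') (G.y e') := by
    rw [← hpr]
    exact Or.inr ⟨Or.inl rfl, Or.inr rfl⟩
  obtain ⟨S, hS⟩ : ∃ S : Finset (Fin k), S = (univ.erase e).erase e' := ⟨_, rfl⟩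
  have he' : e' ∉ S := by rw [hS]; exact Finset.notMem_erase _ _
  have heS : e ∉ S := by rw [hS]; simp
  have hU : univ.erase e = insert e' S := by
    rw [hS, Finset.insert_erase]
    simp [Ne.symm hne]
  have hU2 : (univ : Finset (Fin k)) = insert e (univ.erase e) := by
    rw [Finset.insert_erase (Finset.mem_univ e)]
  have e1 : m G q ⊥ univ = (1 + 1 / (q - 1)) * m G q (pr (G.x e) (G.y e)) (univ.erase e)
      - 1 / (q - 1) * m G q ⊥ (univ.erase e) := by
    conv_lhs => rw [hU2]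
    rw [m_insert G q (Finset.notMem_erase e univ), bot_sup_eq]
  have e2 : m G q ⊥ (univ.erase e) = (1 + 1 / (q - 1)) * m G q (pr (G.x e) (G.y e)) S
      - 1 / (q - 1) * m G q ⊥ S := by
    rw [hU, m_insert G q he', bot_sup_eq, hpr]
  have e3 : m G q (pr (G.x e) (G.y e)) (univ.erase e) = m G q (pr (G.x e) (G.y e)) S := by
    have := m_loops G q (S := {e'}) (O := S) (pr (G.x e) (G.y e)) (by
      intro x hx
      rw [Finset.mem_singleton] at hx
      subst hx
      exact hrel')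
    rw [← this, hU]
    congr 1
    rw [Finset.insert_eq, Finset.union_comm]
  have hScard : S.card + 2 = k := by
    have h1 : (univ : Finset (Fin k)).card = k := by rw [Finset.card_univ, Fintype.card_fin]
    rw [hU2, hU, Finset.card_insert_of_notMem, Finset.card_insert_of_notMem he'] at h1
    · exact h1
    · rw [Finset.mem_insert]
      rintro (h | h)
      · exact hne h
      · exact heS h
  have hH := hyp_all hq hn G
  have hM0 : 0 ≤ m G q ⊥ S := nonneg_all hq G ⊥ S
  have hM1 : 0 ≤ m G q (pr (G.x e) (G.y e)) S := nonneg_all hq G _ S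
  have hmo : m G q ⊥ S ≤ q * m G q (pr (G.x e) (G.y e)) S := by
    have := hH.mono ⊥ S (G.x e) (G.y e) (by rw [Fintype.card_fin]; omega)
    rwa [bot_sup_eq] at this
  have hcl : cl (pr (G.x e) (G.y e)) + 1 = n := by
    have h1 := cl_sup_pr_of_not (s := (⊥ : Setoid (Fin n))) (a := G.x e) (b := G.y e) hab
    rw [bot_sup_eq, cl_bot, Fintype.card_fin] at h1
    exact h1
  have hconn : pr (G.x e) (G.y e) ⊔ conn G S = conn G univ := by
    rw [hU2, hU, conn_insert, conn_insert, hpr, sup_assoc, sup_idem, sup_comm]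
  have h3 := tw_minor G (pr (G.x e) (G.y e)) S (ih _ _ (by omega)) (by
    intro f hf
    have hfe : f ≠ e := fun h => heS (h ▸ hf)
    have hfe' : f ≠ e' := fun h => he' (h ▸ hf)
    have h4 : univ.erase f = insert e (insert e' (S.erase f)) := by
      ext x
      rw [hS]
      simp only [Finset.mem_erase, Finset.mem_univ, and_true, Finset.mem_insert]
      by_cases hx : x = e
      · simp [hx, hfe.symm]
      · by_cases hx' : x = e'
        · simp [hx', hfe'.symm]
        · simp [hx, hx']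
    have h5 := hb f
    rw [h4, conn_insert, conn_insert, hpr, sup_assoc, sup_idem, sup_comm] at h5
    exact h5)
  rw [hconn] at h3
  have hcle : cl (conn G univ) ≤ cl (pr (G.x e) (G.y e)) := by
    rw [← hconn]
    exact cl_le_of_le le_sup_left
  rw [e1, e2, e3]
  obtain ⟨p, hpd⟩ : ∃ p, p = 1 / (q - 1) := ⟨_, rfl⟩
  rw [← hpd] at hp0 hp1 hp2 ⊢
  obtain ⟨M1, hM1d⟩ : ∃ M1, M1 = m G q (pr (G.x e) (G.y e)) S := ⟨_, rfl⟩
  obtain ⟨M0, hM0d⟩ : ∃ M0, M0 = m G q ⊥ S := ⟨_, rfl⟩
  rw [← hM1d] at hM1 hmo h3 ⊢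
  rw [← hM0d] at hM0 hmo ⊢
  have hq1 : 0 < q - 1 := by nlinarith
  have hpq : p * (q - 1) = 1 := by rw [hpd]; field_simp
  have h5 : (1 + p) * M1 - p * ((1 + p) * M1 - p * M0) = (1 - p ^ 2) * M1 + p ^ 2 * M0 := by ring
  rw [h5]
  have hlow : (1 - p ^ 2) * M1 ≤ (1 - p ^ 2) * M1 + p ^ 2 * M0 := by
    have := mul_nonneg (sq_nonneg p) hM0
    linarith
  have hup : (1 - p ^ 2) * M1 + p ^ 2 * M0 ≤ (1 + p) * M1 := by
    have h6 : p ^ 2 * M0 ≤ p ^ 2 * (q * M1) := mul_le_mul_of_nonneg_left hmo (sq_nonneg p)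
    have h7 : p ^ 2 * (q * M1) = p * M1 * (p * (q - 1)) + p ^ 2 * M1 := by ring
    rw [h7, hpq] at h6
    linarith
  have hpp : p ^ 2 ≤ p := by nlinarith
  have hδ0 : 0 ≤ δ := by linarith
  have g1 := bnd_lo (p := 1 - p ^ 2) hδ1 (by linarith) (by nlinarith) hcle hM1 h3
  have g2 := bnd_lo (p := 1 + p) hδ1 (by linarith) (by linarith) hcle hM1 h3
  rw [hcl] at g1 g2
  exact ⟨g1.1.trans hlow, hup.trans g2.2⟩

end

end Pool.Agent.Y428.Tu
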