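import Pool.Agent.Y428.Tu.Two2
set_option autoImplicit false
set_option linter.unusedSectionVars false
set_option linter.unusedVariables false
set_option maxHeartbeats 1000000

/-! Two-sided bounds for the flow polynomial of every bridgeless graph: the induction, part two. -/

namespace Pool.Agent.Y428.Tu

open Finset Pool.Agent.H753R2.FR

section
variable {n k : ℕ} {q δ : ℝ}

theorem case_deg (hq : 4 * MM ^ 2 + 3 ≤ q) (hδ : 4 * MM ^ 2 ≤ δ * q) (hδ1 : δ ≤ 1)
    (ih : ∀ n' k', n' + k' < n + k → Tw q δ n' k')
    (G : MG (Fin n) (Fin k)) (hn : 0 < n) (hb : Bridgeless G) (hl : ∀ e, G.x e ≠ G.y e)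
    (v : Fin n) (hv : (cut G {v} {v}ᶜ).card ≤ 2) :
    Bnd q δ n (cl (conn G univ)) (m G q ⊥ univ) := by
  have hNe : Nonempty (Fin n) := ⟨⟨0, hn⟩⟩
  obtain ⟨hp0, hp1, hp2⟩ := small_p hq hδ
  have hM := basics.2.2.2.2.1
  have hq3 : 3 ≤ q := by nlinarith
  have hq0 : 0 < q := by linarith
  have hδ0 : 0 ≤ δ := by linarith
  rcases Nat.lt_or_ge (cut G {v} {v}ᶜ).card 2 with hlt | hge
  · rcases Nat.eq_zero_or_pos (cut G {v} {v}ᶜ).card with h0 | h0
    · -- isolated vertex
      rw [Finset.card_eq_zero] at h0
      by_cases hw : ∃ w, w ≠ v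
      · obtain ⟨w, hw⟩ := hw
        have h1 : ¬ (⊥ ⊔ conn G univ) v w := by
          rw [bot_sup_eq]
          intro h2
          exact E1.not_mg_compl hw (E1.conn_star_le G v univ (by rw [h0]; exact Finset.disjoint_empty_right _)
            hl h2)
        have h2 := m_disc G q (by linarith) ⊥ h1
        rw [bot_sup_eq] at h2 h1
        have hcl : cl (pr v w) + 1 = n := by
          have h1 := cl_sup_pr_of_not (s := (⊥ : Setoid (Fin n))) (a := v) (b := w) hw.symm
          rw [bot_sup_eq, cl_bot, Fintype.card_fin] at h1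
          exact h1
        have h3 := tw_minor G (pr v w) univ (ih _ _ (by
          rw [Finset.card_univ, Fintype.card_fin]; omega)) (by
          intro f _
          exact (le_sup_right : conn G (univ.erase f) ≤ pr v w ⊔ conn G (univ.erase f)) (hb f))
        have h4 := cl_sup_pr_of_not h1
        rw [sup_comm] at h4
        obtain ⟨h5, h6⟩ := h3
        rw [← h2]
        unfold Bnd
        have e1 : n - cl (conn G univ) = cl (pr v w) - cl (pr v w ⊔ conn G univ) := by omega
        rw [e1, ← h4, pow_succ]
        constructor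
        · calc (1 - δ) ^ (cl (pr v w) - cl (pr v w ⊔ conn G univ)) * (q ^ cl (pr v w ⊔ conn G univ) * q)
              = q * ((1 - δ) ^ (cl (pr v w) - cl (pr v w ⊔ conn G univ)) *
                q ^ cl (pr v w ⊔ conn G univ)) := by ring
            _ ≤ _ := mul_le_mul_of_nonneg_left h5 hq0.le
        · calc q * m G q (pr v w) univ ≤ q * ((1 + δ) ^ (cl (pr v w) - cl (pr v w ⊔ conn G univ)) *
                q ^ cl (pr v w ⊔ conn G univ)) := mul_le_mul_of_nonneg_left h6 hq0.le
            _ = _ := by ring
      · push Not at hw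
        have h1 : (univ : Finset (Fin k)) = ∅ := by
          apply Finset.eq_empty_of_forall_notMem
          intro e _
          exact hl e ((hw _).trans (hw _).symm)
        rw [h1, m_empty, conn_empty, cl_bot, Fintype.card_fin]
        unfold Bnd
        rw [Nat.sub_self, pow_zero, pow_zero, one_mul]
        exact ⟨le_rfl, le_rfl⟩
    · exfalso
      have h1 : (cut G {v} {v}ᶜ).card = 1 := by omega
      obtain ⟨e, he⟩ := Finset.card_eq_one.1 h1
      refine E1.cut_edge_bridge G v (univ.erase e) ?_ hl (e := e) (by rw [he]; simp) (hb e)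
      rw [he, Finset.disjoint_singleton_right]
      exact Finset.notMem_erase _ _
  · have h2 : (cut G {v} {v}ᶜ).card = 2 := by omega
    obtain ⟨e1, e2, hne, he⟩ := Finset.card_eq_two.1 h2
    have hU2 : (univ : Finset (Fin k)) = insert e1 (univ.erase e1) := by
      rw [Finset.insert_erase (Finset.mem_univ e1)]
    have hU : univ.erase e1 = insert e2 ((univ.erase e1).erase e2) := by
      rw [Finset.insert_erase]
      simp [hne.symm]
    have k1 : m G q ⊥ univ = (1 + 1 / (q - 1)) * m G q (pr (G.x e1) (G.y e1)) (univ.erase e1)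
        - 1 / (q - 1) * m G q ⊥ (univ.erase e1) := by
      conv_lhs => rw [hU2]
      rw [m_insert G q (Finset.notMem_erase e1 univ), bot_sup_eq]
    have k2 : m G q ⊥ (univ.erase e1) = 0 := by
      rw [hU]
      apply m_bridge G q (by linarith) (Finset.notMem_erase _ _)
      rw [bot_sup_eq]
      refine E1.cut_edge_bridge G v _ ?_ hl (by rw [he]; simp)
      rw [he, Finset.disjoint_left]
      intro x hx hx2
      rw [Finset.mem_insert, Finset.mem_singleton] at hx2
      rw [Finset.mem_erase, Finset.mem_erase] at hx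
      rcases hx2 with h3 | h3
      · exact hx.2.1 h3
      · exact hx.1 h3
    have hcl : cl (pr (G.x e1) (G.y e1)) + 1 = n := by
      have h1 := cl_sup_pr_of_not (s := (⊥ : Setoid (Fin n))) (a := G.x e1) (b := G.y e1) (hl e1)
      rw [bot_sup_eq, cl_bot, Fintype.card_fin] at h1
      exact h1
    have hk : 0 < k := lt_of_le_of_lt (Nat.zero_le _) e1.2
    have hconn : pr (G.x e1) (G.y e1) ⊔ conn G (univ.erase e1) = conn G univ := by
      conv_rhs => rw [hU2]
      rw [conn_insert, sup_comm]
    have h3 := tw_minor G (pr (G.x e1) (G.y e1)) (univ.erase e1) (ih _ _ (by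
      rw [Finset.card_erase_of_mem (Finset.mem_univ e1), Finset.card_univ, Fintype.card_fin]
      omega)) (by
      intro f hf
      have hfe : f ≠ e1 := Finset.ne_of_mem_erase hf
      have h4 : univ.erase f = insert e1 ((univ.erase e1).erase f) := by
        ext x
        simp only [Finset.mem_erase, Finset.mem_univ, and_true, Finset.mem_insert]
        by_cases hx : x = e1
        · simp [hx, hfe.symm]
        · simp [hx]
      have h5 := hb f
      rw [h4, conn_insert, sup_comm] at h5
      exact h5)
    rw [hconn] at h3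
    have hcle : cl (conn G univ) ≤ cl (pr (G.x e1) (G.y e1)) := by
      rw [← hconn]
      exact cl_le_of_le le_sup_left
    rw [k1, k2, mul_zero, sub_zero]
    have g := bnd_lo (p := 1 + 1 / (q - 1)) hδ1 (by linarith) (by linarith) hcle
      (nonneg_all hq G _ _) h3
    rw [hcl] at g
    exact g

theorem case_thin (hq : 4 * MM ^ 2 + 3 ≤ q) (hδ : 4 * MM ^ 2 ≤ δ * q) (hδ1 : δ ≤ 1)
    (ih : ∀ n' k', n' + k' < n + k → Tw q δ n' k')
    (G : MG (Fin n) (Fin k)) (hn : 0 < n) (hb : Bridgeless G) (X : Finset (Fin n))
    (hX : Thin G X) : Bnd q δ n (cl (conn G univ)) (m G q ⊥ univ) := by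
  have hNe : Nonempty (Fin n) := ⟨⟨0, hn⟩⟩
  obtain ⟨hp0, hp1, hp2⟩ := small_p hq hδ
  have hM := basics.2.2.2.2.1
  have hq3 : 3 ≤ q := by nlinarith
  have hq0 : 0 < q := by linarith
  have hδ0 : 0 ≤ δ := by linarith
  have hH := hyp_all hq hn G
  have h2 := hX.two_le
  obtain ⟨a, ha, b, hb', hab⟩ := Finset.one_lt_card.1 (by omega : 1 < X.card)
  have key : ∀ S : Finset (Fin n), insert a S ⊆ X →
      (1 - δ) ^ (n - cl (mg (insert a S))) * m G q (mg (insert a S)) univ ≤ m G q ⊥ univ ∧
      m G q ⊥ univ ≤ (1 + δ) ^ (n - cl (mg (insert a S))) * m G q (mg (insert a S)) univ := by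
    intro S
    induction S using Finset.induction_on with
    | empty =>
      intro _
      have : insert a (∅ : Finset (Fin n)) = {a} := rfl
      rw [this, mg_singleton, cl_bot, Fintype.card_fin, Nat.sub_self, pow_zero, pow_zero, one_mul]
      exact ⟨le_rfl, le_rfl⟩
    | insert v S hv ihS =>
      intro hSX
      by_cases hvx : v ∈ insert a S
      · have : insert a (insert v S) = insert a S := by
          rw [Finset.insert_comm, Finset.insert_eq_of_mem hvx]
        rw [this] at hSX ⊢
        exact ihS hSX
      · rw [Finset.insert_comm] at hSX ⊢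
        have hS : insert a S ⊆ X := (Finset.subset_insert _ _).trans hSX
        obtain ⟨h3, h4⟩ := ihS hS
        have h5 := glue_ex hq hH hX hδ (K := insert a S) (Finset.insert_nonempty _ _) hS (v := v)
          (Finset.mem_sdiff.2 ⟨hSX (Finset.mem_insert_self _ _), hvx⟩)
        obtain ⟨h6, h7⟩ := abs_le.mp h5
        have hnr : ¬ (mg (insert a S)) a v := by
          rintro (h | h)
          · exact hvx (h ▸ Finset.mem_insert_self _ _)
          · exact hvx h.2
        have h8 := cl_sup_pr_of_not hnr
        rw [← mg_insert (Finset.mem_insert_self a S)] at h8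
        have h9 : cl (mg (insert a S)) ≤ n := by
          have := E1.cl_le_card (mg (insert a S))
          rwa [Fintype.card_fin] at this
        have h10 : n - cl (mg (insert v (insert a S))) = (n - cl (mg (insert a S))) + 1 := by
          omega
        have hm0 := nonneg_all hq G (mg (insert v (insert a S))) univ
        rw [h10, pow_succ, pow_succ]
        have hd0 : (0 : ℝ) ≤ 1 - δ := by linarith
        constructor
        · refine le_trans ?_ h3
          calc (1 - δ) ^ (n - cl (mg (insert a S))) * (1 - δ) * m G q (mg (insert v (insert a S))) univ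
              = (1 - δ) ^ (n - cl (mg (insert a S))) *
                ((1 - δ) * m G q (mg (insert v (insert a S))) univ) := by ring
            _ ≤ _ := mul_le_mul_of_nonneg_left (by linarith) (pow_nonneg hd0 _)
        · refine le_trans h4 ?_
          calc (1 + δ) ^ (n - cl (mg (insert a S))) * m G q (mg (insert a S)) univ
              ≤ (1 + δ) ^ (n - cl (mg (insert a S))) *
                ((1 + δ) * m G q (mg (insert v (insert a S))) univ) :=
                mul_le_mul_of_nonneg_left (by linarith) (pow_nonneg (by linarith) _)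
            _ = _ := by ring
  obtain ⟨h3, h4⟩ := key X (Finset.insert_subset ha (Finset.Subset.refl X))
  rw [Finset.insert_eq_of_mem ha] at h3 h4
  have h5 : mg X ≠ ⊥ := by
    intro h
    have h5 : mg X a b := Or.inr ⟨ha, hb'⟩
    rw [h] at h5
    exact hab h5
  have h6 := E1.cl_lt_of_ne_bot h5
  rw [Fintype.card_fin] at h6
  have hXc := thin_conn hX
  have h7 := tw_minor G (mg X) univ (ih _ _ (by
    rw [Finset.card_univ, Fintype.card_fin]; omega)) (by
    intro f _
    exact (le_sup_right : conn G (univ.erase f) ≤ mg X ⊔ conn G (univ.erase f)) (hb f))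
  rw [sup_eq_right.mpr hXc] at h7
  obtain ⟨h8, h9⟩ := h7
  have h10 : cl (conn G univ) ≤ cl (mg X) := cl_le_of_le hXc
  have h11 : n - cl (conn G univ) = (n - cl (mg X)) + (cl (mg X) - cl (conn G univ)) := by omega
  unfold Bnd
  rw [h11, pow_add, pow_add]
  have hd0 : (0 : ℝ) ≤ 1 - δ := by linarith
  constructor
  · refine le_trans ?_ h3
    rw [mul_assoc]
    exact mul_le_mul_of_nonneg_left h8 (pow_nonneg hd0 _)
  · refine le_trans h4 ?_
    rw [mul_assoc]
    exact mul_le_mul_of_nonneg_left h9 (pow_nonneg (by linarith) _)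

/-- the two-sided bound -/
theorem two_sided (hq : 4 * MM ^ 2 + 3 ≤ q) (hδ : 4 * MM ^ 2 ≤ δ * q) (hδ1 : δ ≤ 1) :
    ∀ n k, Tw q δ n k := by
  have key : ∀ N n k, n + k = N → Tw q δ n k := by
    intro N
    induction N using Nat.strong_induction_on with
    | _ N ih =>
      intro n k hN G hn hb
      have ih' : ∀ n' k', n' + k' < n + k → Tw q δ n' k' := fun n' k' h =>
        ih (n' + k') (by omega) n' k' rfl
      have hNe : Nonempty (Fin n) := ⟨⟨0, hn⟩⟩
      by_cases hl : ∀ e, G.x e ≠ G.y e
      · by_cases hs : ∀ e e', ((G.x e = G.x e' ∧ G.y e = G.y e') ∨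
          (G.x e = G.y e' ∧ G.y e = G.x e')) → e = e'
        · by_cases hd : ∀ v, 3 ≤ (cut G {v} {v}ᶜ).card
          · obtain ⟨X, hX⟩ := exists_thin G hd hl hs
            exact case_thin hq hδ hδ1 ih' G hn hb X hX
          · push Not at hd
            obtain ⟨v, hv⟩ := hd
            exact case_deg hq hδ hδ1 ih' G hn hb hl v (by omega)
        · push Not at hs
          obtain ⟨e, e', hp, hne⟩ := hs
          exact case_par hq hδ hδ1 ih' G hn hb hl e e' hne hp
      · push Not at hl
        obtain ⟨e, he⟩ := hl
        exact case_loop hq ih' G hn hb e he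
  exact fun n k => key (n + k) n k rfl

end

end Pool.Agent.Y428.Tu
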